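import Mathlib
import Pool.Agent.TH881.One

/-! The optimal function `f*` for `A + P` near `1`. -/

set_option autoImplicit false

namespace Pool.Agent.Results.MP_e86632_nt.AtOne
open Filter Topology
open Pool.Agent.TH881

/-- `(1 - x) * log log (1 / (1 - f*(x)))` tends to `exp (-γ)` as `x` tends to `1` from the left. -/
theorem result : Tendsto (fun x : ℝ => (1 - x) * Real.log (Real.log (1 / (1 - fstar x))))
    (𝓝[<] 1) (𝓝 (Real.exp (-Real.eulerMascheroniConstant))) := fstar_one

end Pool.Agent.Results.MP_e86632_nt.AtOne
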