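import Mathlib
import Pool.Agent.TH881.Zero

/-! The optimal function `f*` for `A + P` near `0`. -/

set_option autoImplicit false

namespace Pool.Agent.Results.MP_e86632_nt.AtZero
open Filter Topology
open Pool.Agent.TH881

/-- `f*(x) * log log (1 / x)` tends to `exp (-γ)` as `x` tends to `0` from the right. -/
theorem result : Tendsto (fun x : ℝ => fstar x * Real.log (Real.log (1 / x))) (𝓝[>] 0)
    (𝓝 (Real.exp (-Real.eulerMascheroniConstant))) := fstar_zero

end Pool.Agent.Results.MP_e86632_nt.AtZero
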