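import Mathlib
import Pool.Agent.TH881.Dual

/-! Duality for the optimal function `f*`. -/

set_option autoImplicit false

namespace Pool.Agent.Results.MP_e86632_nt.Duality
open Pool.Agent.TH881

/-- The function `x ↦ 1 - f*(x)` is a strictly decreasing involution of the interval `(0, 1)`. -/
theorem result : StrictAntiOn (fun x => 1 - fstar x) (Set.Ioo 0 1) ∧
    ∀ x ∈ Set.Ioo (0 : ℝ) 1, 1 - fstar x ∈ Set.Ioo (0 : ℝ) 1 ∧ 1 - fstar (1 - fstar x) = x :=
  fstar_dual

end Pool.Agent.Results.MP_e86632_nt.Duality
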