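import Mathlib
import Pool.Agent.TH881.Main2

/-! An exact formula for the optimal function `f*`. -/

set_option autoImplicit false

namespace Pool.Agent.Results.MP_e86632_nt.LocalFormula
open Pool.Agent.TH881

/-- For `0 < x < 1`, `f*(x)` is the infimum of `|C + P mod W| / W` over all moduli `W` and all sets
`C` of at least `x W` residue classes modulo `W`. -/
theorem result (x : ℝ) (hx0 : 0 < x) (hx1 : x < 1) : fstar x = localMin x :=
  fstar_eq_localMin hx0 hx1

end Pool.Agent.Results.MP_e86632_nt.LocalFormula
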